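import Mathlib
import Pool.Agent.X173.HYB

/-!
# Kronecker–van der Corput hybrid sequences for `α ∈ Bad_p` are low discrepancy

For every prime `p` and every `α ∈ Bad_p` the sequence `({n α}, φ_p(n))` in the unit square has
star discrepancy `D_N = O((log N) ^ 2 / N)`.
-/

set_option autoImplicit false

namespace Pool.Agent.Results.MP_22b8ff_nt.HybridLowDiscrepancy

open Filter Asymptotics Finset Pool.Agent.X173.HYA Pool.Agent.X173.HYB

/-- `Bad_p`: the real `α` with `inf_{q ≥ 1} q |q|_p ‖q α‖ > 0`. -/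
def Bad (p : ℕ) : Set ℝ :=
  {α | 0 < ⨅ q : ℕ+, (q : ℝ) * ((padicNorm p (q : ℚ) : ℚ) : ℝ) *
    |(q : ℝ) * α - round ((q : ℝ) * α)|}

/-- The van der Corput sequence in base `p`: the sum of `a_i p ^ (-i-1)`, where
`a_i = ⌊n / p ^ i⌋ mod p` are the base `p` digits of `n`. -/
noncomputable def radicalInverse (p n : ℕ) : ℝ :=
  ∑' i : ℕ, ((n / p ^ i % p : ℕ) : ℝ) / (p : ℝ) ^ (i + 1)

open Classical in
/-- The star discrepancy `D_N` of `({n α}, φ_p(n))`, `0 ≤ n < N`: the supremum over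
`0 ≤ a, b ≤ 1` of `|#{n < N : {n α} < a, φ_p(n) < b} / N - a b|`. -/
noncomputable def discrepancy (p : ℕ) (α : ℝ) (N : ℕ) : ℝ :=
  ⨆ ab : unitInterval × unitInterval,
    |(((Finset.range N).filter fun n : ℕ =>
      Int.fract (n * α) < ab.1 ∧ radicalInverse p n < ab.2).card : ℝ) / N - ab.1 * ab.2|

lemma ub_of_bad {p : ℕ} [hp : Fact p.Prime] {α : ℝ} (h : α ∈ Bad p) :
    ∃ c : ℝ, 0 < c ∧ c < 1 ∧ UB p c α := by
  have h0 : 0 < ⨅ q : ℕ+, (q : ℝ) * ((padicNorm p (q : ℚ) : ℚ) : ℝ) *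
    |(q : ℝ) * α - round ((q : ℝ) * α)| := h
  have hnn : ∀ q : ℕ+, 0 ≤ (q : ℝ) * ((padicNorm p (q : ℚ) : ℚ) : ℝ) *
      |(q : ℝ) * α - round ((q : ℝ) * α)| := by
    intro q
    have : (0:ℝ) ≤ ((padicNorm p (q : ℚ) : ℚ) : ℝ) := by exact_mod_cast padicNorm.nonneg _
    positivity
  have hbdd : BddBelow (Set.range fun q : ℕ+ => (q : ℝ) * ((padicNorm p (q : ℚ) : ℚ) : ℝ) *
      |(q : ℝ) * α - round ((q : ℝ) * α)|) := ⟨0, by rintro _ ⟨q, rfl⟩; exact hnn q⟩
  set c := ⨅ q : ℕ+, (q : ℝ) * ((padicNorm p (q : ℚ) : ℚ) : ℝ) *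
    |(q : ℝ) * α - round ((q : ℝ) * α)| with hc
  have hle : ∀ q : ℕ+, c ≤ (q : ℝ) * ((padicNorm p (q : ℚ) : ℚ) : ℝ) *
      |(q : ℝ) * α - round ((q : ℝ) * α)| := fun q => ciInf_le hbdd q
  have hub : UB p c α := by
    intro k q hq
    have hpq : 0 < p ^ k * q := Nat.mul_pos (pow_pos hp.out.pos k) hq
    have h1 := hle ⟨p ^ k * q, hpq⟩
    simp only [PNat.mk_coe] at h1
    have hpk : (0:ℚ) < (p:ℚ) ^ k := by
      have : (0:ℚ) < p := by exact_mod_cast hp.out.pos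
      positivity
    have h2 : padicNorm p ((((p ^ k * q : ℕ) : ℤ)) : ℚ) ≤ (p : ℚ) ^ (-k : ℤ) := by
      rw [← padicNorm.dvd_iff_norm_le]
      exact_mod_cast Dvd.intro q rfl
    have h3 : (((p ^ k * q : ℕ) : ℚ)) * padicNorm p (((p ^ k * q : ℕ)) : ℚ) ≤ q := by
      have e : ((((p ^ k * q : ℕ) : ℤ)) : ℚ) = (((p ^ k * q : ℕ)) : ℚ) := by norm_cast
      rw [e] at h2
      calc (((p ^ k * q : ℕ) : ℚ)) * padicNorm p (((p ^ k * q : ℕ)) : ℚ)
          ≤ (((p ^ k * q : ℕ) : ℚ)) * (p : ℚ) ^ (-k : ℤ) := by gcongr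
        _ = q := by
          rw [zpow_neg, zpow_natCast]
          push_cast
          field_simp
    have h3' : (((p ^ k * q : ℕ) : ℝ)) * ((padicNorm p (((p ^ k * q : ℕ)) : ℚ) : ℚ) : ℝ) ≤ q := by
      exact_mod_cast h3
    refine h1.trans ?_
    have e : ((p ^ k * q : ℕ) : ℝ) * α = (q:ℝ) * ((p:ℝ) ^ k * α) := by push_cast; ring
    rw [e]
    exact mul_le_mul_of_nonneg_right h3' (abs_nonneg _)
  refine ⟨c, h0, ?_, hub⟩
  have h1 := hub 0 1 one_pos
  simp only [pow_zero, Nat.cast_one, one_mul] at h1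
  have h2 : nrm α ≤ 1 / 2 := abs_sub_round α
  linarith

lemma card_eq (p : ℕ) (α : ℝ) (N : ℕ) (a b : ℝ) :
    (by classical exact (((Finset.range N).filter fun n : ℕ =>
      Int.fract (n * α) < a ∧ radicalInverse p n < b).card : ℝ)) = Z p α 0 a N b := by
  classical
  unfold Z
  rw [Finset.card_filter]
  push_cast
  refine sum_congr rfl fun m _ => ?_
  rw [zero_add]
  rfl

theorem result (p : ℕ) [Fact p.Prime] (α : ℝ) (hα : α ∈ Bad p) :
    (fun N : ℕ => discrepancy p α N) =O[atTop] (fun N : ℕ => (Real.log N) ^ 2 / N) := by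
  have hp : 2 ≤ p := (Fact.out : p.Prime).two_le
  obtain ⟨c, hc, hc1, hub⟩ := ub_of_bad hα
  have hl : Real.log (1 - c) < 0 := Real.log_neg (by linarith) (by linarith)
  have hA : 0 < 3 / (-Real.log (1 - c)) := by
    apply div_pos (by norm_num) (by linarith)
  set A := 3 / (-Real.log (1 - c)) with hAdef
  have hl2 : (1:ℝ) / 2 < Real.log 2 := by
    have := Real.log_two_gt_d9
    linarith
  refine IsBigO.of_bound (4 + 4 * (p * (8 + A) + 2)) ?_
  filter_upwards [eventually_ge_atTop 2] with N hN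
  have hN0 : 0 < N := by omega
  have hN' : (0:ℝ) < N := by exact_mod_cast hN0
  set l := Real.log N with hldef
  have hl3 : 1 / 2 < l := by
    refine hl2.trans_le (Real.log_le_log (by norm_num) (by exact_mod_cast hN))
  have hl0 : 0 < l := by linarith
  have hp' : (0:ℝ) < p := by exact_mod_cast (show 0 < p by omega)
  -- the number of digits
  have hj : ((Nat.log 2 N + 1 : ℕ) : ℝ) ≤ 4 * l := by
    have h1 : (2:ℝ) ^ (Nat.log 2 N) ≤ N := by exact_mod_cast Nat.pow_log_le_self 2 hN0.ne'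
    have h2 := Real.log_le_log (by positivity) h1
    rw [Real.log_pow] at h2
    push_cast
    have h3 : (Nat.log 2 N : ℝ) * (1 / 2) ≤ Nat.log 2 N * Real.log 2 := by gcongr
    linarith
  have hNj : N ≤ 2 ^ (Nat.log 2 N + 1) := (Nat.lt_pow_succ_log_self (by norm_num) N).le
  set j := Nat.log 2 N + 1 with hjdef
  have hZ : ∀ a b : ℝ, 0 ≤ a → a ≤ 1 → 0 ≤ b → b ≤ 1 →
      |Z p α 0 a N b - a * b * N| ≤ (4 + 4 * (p * (8 + A) + 2)) * l ^ 2 := by
    intro a b ha ha1 hb hb1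
    have hll : 1 ≤ 4 * l ^ 2 := by nlinarith
    rcases lt_or_eq_of_le hb1 with hb2 | hb2
    · have h1 := Z_bound p hp c hc hc1 a ha ha1 N hN0 j N le_rfl hNj α 0 b hub hb hb2
      rw [← hAdef, ← hldef] at h1
      refine h1.trans ?_
      have h2 : (j:ℝ) * (p * (4 + A * l) + 1) ≤ 4 * l * (p * (4 + A * l) + 1) := by gcongr
      have h3 : 4 * l * (p * (4 + A * l) + 1) ≤ 4 * (p * (8 + A) + 2) * l ^ 2 := by
        have h4 : 0 ≤ (p:ℝ) * l := by positivity
        nlinarith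
      nlinarith
    · rw [hb2, Z_b_one p hp α 0 a N 1 le_rfl]
      have h1 := cnt_bound α c hc hc1 hub.bad a ha ha1 N hN0 0
      rw [← hAdef, ← hldef] at h1
      have e : cnt α 0 a N - a * 1 * N = cnt α 0 a N - N * a := by ring
      rw [e]
      refine h1.trans ?_
      have hp2 : (2:ℝ) ≤ p := by exact_mod_cast hp
      have h4 : A * l ≤ 2 * A * l ^ 2 := by nlinarith [mul_pos hA hl0]
      have h5 : 2 * (8 + A) ≤ p * (8 + A) := by gcongr
      have h6 : (2 * (8 + A)) * l ^ 2 ≤ (p * (8 + A)) * l ^ 2 := by gcongr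
      nlinarith
  have hbound : ∀ ab : unitInterval × unitInterval,
      |((by classical exact ((Finset.range N).filter fun n : ℕ =>
        Int.fract (n * α) < (ab.1 : ℝ) ∧ radicalInverse p n < (ab.2 : ℝ)).card : ℕ) : ℝ) / N -
          ab.1 * ab.2| ≤ (4 + 4 * (p * (8 + A) + 2)) * l ^ 2 / N := by
    intro ab
    have h1 := hZ ab.1 ab.2 ab.1.2.1 ab.1.2.2 ab.2.2.1 ab.2.2.2
    rw [← card_eq] at h1
    set x : ℝ := ((by classical exact ((Finset.range N).filter fun n : ℕ =>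
        Int.fract (n * α) < (ab.1 : ℝ) ∧ radicalInverse p n < (ab.2 : ℝ)).card : ℕ) : ℝ) with hx
    have e : x / N - (ab.1 : ℝ) * ab.2 = (x - ab.1 * ab.2 * N) / N := by
      field_simp
    rw [e, abs_div, abs_of_pos hN']
    exact div_le_div_of_nonneg_right h1 hN'.le
  have hD0 : 0 ≤ discrepancy p α N := Real.iSup_nonneg fun ab => abs_nonneg _
  have hD : discrepancy p α N ≤ (4 + 4 * (p * (8 + A) + 2)) * l ^ 2 / N := by
    apply ciSup_le
    intro ab
    exact hbound ab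
  rw [Real.norm_of_nonneg hD0, Real.norm_of_nonneg (by positivity)]
  refine hD.trans (le_of_eq ?_)
  ring

end Pool.Agent.Results.MP_22b8ff_nt.HybridLowDiscrepancy
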